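import Pool.Agent.T2h56.TG.All2

/-! Gracefully inscribed rectangles: the vertices follow each other on the curve. Definitions and
elementary facts. -/

set_option autoImplicit false

namespace Pool.Agent.T2h56.GRC

open Set Complex T2h56.TG

/-- `pL`, `pB`, `pR`, `pT` are the consecutive vertices of a rectangle with side ratio `r`. -/
def Quad (r l : ℝ) (pL pB pR pT : ℂ) : Prop :=
  pL + pR = pB + pT ∧ ((pL - pB = r * I * (pR - pB) ∧ l ≤ ‖pR - pB‖) ∨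
    (pT - pL = r * I * (pB - pL) ∧ l ≤ ‖pB - pL‖))

/-- the arc with number `i` -/
def arc (a1 a2 : ℝ → ℂ) (i : Bool) : ℝ → ℂ := if i then a1 else a2

/-- the order of the vertices on the two arcs -/
def Ord (i j : Bool) (sL sB sR sT : ℝ) : Prop :=
  sL ∈ Icc (0:ℝ) 1 ∧ sB ∈ Icc (0:ℝ) 1 ∧ sR ∈ Icc (0:ℝ) 1 ∧ sT ∈ Icc (0:ℝ) 1 ∧
  (i = true → sL ≤ sB) ∧ (i = false → sL ≤ sT) ∧ (j = true → sB ≤ sR) ∧ (j = false → sT ≤ sR)

/-- the sheared arc -/
noncomputable def sh (e : ℝ) (a : ℝ → ℂ) (s : ℝ) : ℂ := a s + (e * s : ℝ)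

/-- graceful rectangles for the sheared arcs, the first arc being the lower one -/
def GUE (a1 a2 : ℝ → ℂ) (r : ℝ) : Prop := ∃ l > 0, ∃ e1 > 0, ∀ e ∈ Ioo (0:ℝ) e1,
  ∃ (i j : Bool) (sL sB sR sT : ℝ), Ord i j sL sB sR sT ∧
    Quad r l (sh e (arc a1 a2 i) sL) (sh e a1 sB) (sh e (arc a1 a2 j) sR) (sh e a2 sT)

/-- graceful rectangles for the two arcs, the first arc being the lower one -/
def GTWO (a1 a2 : ℝ → ℂ) (r : ℝ) : Prop := ∃ l > 0, ∃ (i j : Bool) (sL sB sR sT : ℝ),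
  Ord i j sL sB sR sT ∧
    Quad r l (arc a1 a2 i sL) (a1 sB) (arc a1 a2 j sR) (a2 sT)

/-- sides of a `Quad` -/
theorem Quad.sides {r l : ℝ} {pL pB pR pT : ℂ} (h : Quad r l pL pB pR pT) (hr : 0 < r)
    (hl : 0 ≤ l) : min 1 r * l ≤ ‖pT - pL‖ ∧ min 1 r * l ≤ ‖pB - pL‖ ∧ min 1 r * l ≤ ‖pR - pT‖ ∧
    min 1 r * l ≤ ‖pR - pB‖ := by
  obtain ⟨h0, ⟨h1, h2⟩ | ⟨h1, h2⟩⟩ := h
  · have e1 : ‖pL - pB‖ = r * ‖pR - pB‖ := by
      rw [h1, norm_mul, norm_mul, norm_I, mul_one, Complex.norm_real, Real.norm_eq_abs,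
        abs_of_pos hr]
    have e2 : pT - pL = pR - pB := by linear_combination -h0
    have e3 : ‖pR - pT‖ = r * ‖pR - pB‖ := by
      rw [← e1, ← norm_neg]
      congr 1
      linear_combination -h0
    have a1 : min 1 r * l ≤ ‖pR - pB‖ := by
      have : min 1 r ≤ 1 := min_le_left _ _
      nlinarith
    have a2 : min 1 r * l ≤ r * ‖pR - pB‖ := by
      have : min 1 r ≤ r := min_le_right _ _
      calc min 1 r * l ≤ r * l := mul_le_mul_of_nonneg_right this hl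
        _ ≤ r * ‖pR - pB‖ := mul_le_mul_of_nonneg_left h2 hr.le
    refine ⟨by rw [e2]; exact a1, ?_, by rw [e3]; exact a2, a1⟩
    rw [← norm_neg, neg_sub, e1]
    exact a2
  · have e1 : ‖pT - pL‖ = r * ‖pB - pL‖ := by
      rw [h1, norm_mul, norm_mul, norm_I, mul_one, Complex.norm_real, Real.norm_eq_abs,
        abs_of_pos hr]
    have e2 : pR - pT = pB - pL := by linear_combination h0
    have e3 : ‖pR - pB‖ = r * ‖pB - pL‖ := by
      rw [← e1]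
      congr 1
      linear_combination h0
    have a1 : min 1 r * l ≤ ‖pB - pL‖ := by
      have : min 1 r ≤ 1 := min_le_left _ _
      nlinarith
    have a2 : min 1 r * l ≤ r * ‖pB - pL‖ := by
      have : min 1 r ≤ r := min_le_right _ _
      calc min 1 r * l ≤ r * l := mul_le_mul_of_nonneg_right this hl
        _ ≤ r * ‖pB - pL‖ := mul_le_mul_of_nonneg_left h2 hr.le
    exact ⟨by rw [e1]; exact a2, a1, by rw [e2]; exact a1, by rw [e3]; exact a2⟩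

/-- the four vertices of the rectangle described by a point with `Rect` -/
theorem rect_quad {D : Dat} {y : Pt} (hy : y ∈ D.Y) (hR : D.Rect y) :
    ∃ pL pB pR pT : ℂ, Quad D.r ((y.2.1 - y.1) / (1 + D.r)) pL pB pR pT ∧
      pB.im = D.f pB.re ∧ pT.im = D.g pT.re ∧ (pL.im = D.f pL.re ∨ pL.im = D.g pL.re) ∧
      (pR.im = D.f pR.re ∨ pR.im = D.g pR.re) ∧ pL.re ∈ Icc D.a D.b ∧ pB.re ∈ Icc D.a D.b ∧
      pR.re ∈ Icc D.a D.b ∧ pT.re ∈ Icc D.a D.b ∧ pL.re ≤ pB.re ∧ pL.re ≤ pT.re ∧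
      pB.re ≤ pR.re ∧ pT.re ≤ pR.re := by
  obtain ⟨hlt, lam, mu, hl, hm, h⟩ := hR
  obtain ⟨ha, hLR, hb, hv, -, -⟩ := hy
  have hr := D.r0
  have hr1 : 0 < 1 + D.r := by linarith
  obtain ⟨L, R, v, ξ, ζ⟩ := y
  simp only at hlt hl hm h ha hLR hb hv ⊢
  rcases h with ⟨h0, h1, h2, h3⟩ | ⟨h0, h1, h2, h3⟩
  · rw [abs_of_nonneg h0] at hv
    obtain ⟨u', hu'⟩ : ∃ u', u' = (R - L - v) / D.r := ⟨_, rfl⟩
    have hu0 : 0 ≤ u' := by rw [hu']; exact div_nonneg (by linarith) hr.le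
    have hru : D.r * u' = R - L - v := by rw [hu']; field_simp
    rw [← hu'] at h1 h3
    refine ⟨⟨L, lam⟩, ⟨R - v, D.f (R - v)⟩, ⟨R, mu⟩, ⟨L + v, D.g (L + v)⟩, ⟨?_, Or.inl ⟨?_, ?_⟩⟩,
      rfl, rfl, hl, hm, ⟨ha, by simp only; linarith⟩, ⟨by simp only; linarith, by simp only; linarith⟩,
      ⟨by simp only; linarith, hb⟩, ⟨by simp only; linarith, by simp only; linarith⟩,
      by simp only; linarith, by simp only; linarith, by simp only; linarith,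
      by simp only; linarith⟩
    · apply Complex.ext
      · simp; ring
      · simp only [Complex.add_im]; rw [h1, h2, h3]; ring
    · apply Complex.ext
      · simp; rw [h2, h3]; linarith
      · simp; rw [h2]; ring
    · have e : ((⟨R, mu⟩ : ℂ) - ⟨R - v, D.f (R - v)⟩) = ⟨v, u'⟩ := by
        apply Complex.ext
        · simp
        · simp; rw [h2, h3]; ring
      rw [e, div_le_iff₀ hr1]
      have e1 : v ≤ ‖(⟨v, u'⟩ : ℂ)‖ := (le_abs_self v).trans (Complex.abs_re_le_norm ⟨v, u'⟩)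
      have e2 : u' ≤ ‖(⟨v, u'⟩ : ℂ)‖ := (le_abs_self u').trans (Complex.abs_im_le_norm ⟨v, u'⟩)
      nlinarith
  · rw [abs_of_nonpos h0] at hv
    obtain ⟨u', hu'⟩ : ∃ u', u' = (R - L + v) / D.r := ⟨_, rfl⟩
    have hu0 : 0 ≤ u' := by rw [hu']; exact div_nonneg (by linarith) hr.le
    have hru : D.r * u' = R - L + v := by rw [hu']; field_simp
    rw [← hu'] at h1 h3
    refine ⟨⟨L, lam⟩, ⟨L - v, D.f (L - v)⟩, ⟨R, mu⟩, ⟨R + v, D.g (R + v)⟩, ⟨?_, Or.inr ⟨?_, ?_⟩⟩,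
      rfl, rfl, hl, hm, ⟨ha, by simp only; linarith⟩, ⟨by simp only; linarith, by simp only; linarith⟩,
      ⟨by simp only; linarith, hb⟩, ⟨by simp only; linarith, by simp only; linarith⟩,
      by simp only; linarith, by simp only; linarith, by simp only; linarith,
      by simp only; linarith⟩
    · apply Complex.ext
      · simp
      · simp only [Complex.add_im]; rw [h1, h2, h3]; ring
    · apply Complex.ext
      · simp; rw [h1]; linarith
      · simp; rw [h2]; ring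
    · have e : ((⟨L - v, D.f (L - v)⟩ : ℂ) - ⟨L, lam⟩) = ⟨-v, -u'⟩ := by
        apply Complex.ext
        · simp
        · simp; rw [h1]; ring
      rw [e, div_le_iff₀ hr1]
      have e1 : -v ≤ ‖(⟨-v, -u'⟩ : ℂ)‖ := (le_abs_self (-v)).trans (Complex.abs_re_le_norm ⟨-v, -u'⟩)
      have e2 : u' ≤ ‖(⟨-v, -u'⟩ : ℂ)‖ := by
        have := Complex.abs_im_le_norm (⟨-v, -u'⟩ : ℂ)
        simp only [abs_neg] at this
        exact (le_abs_self u').trans this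
      nlinarith

/-- the arcs are close to each other only near the ends -/
theorem sep2 {a1 a2 : ℝ → ℂ} (h : Arc2 a1 a2) {σ : ℝ} (hσ : 0 < σ) : ∃ d > 0,
    ∀ s ∈ Icc (0:ℝ) 1, ∀ s' ∈ Icc (0:ℝ) 1, ‖a1 s - a2 s'‖ < d →
      (s < σ ∧ s' < σ) ∨ (1 - σ < s ∧ 1 - σ < s') := by
  obtain ⟨K, hK⟩ : ∃ K : Set (ℝ × ℝ), K = (Icc (0:ℝ) 1 ×ˢ Icc (0:ℝ) 1) ∩
    ({p : ℝ × ℝ | σ ≤ p.1 ∨ σ ≤ p.2} ∩ {p : ℝ × ℝ | p.1 ≤ 1 - σ ∨ p.2 ≤ 1 - σ}) := ⟨_, rfl⟩
  have hcl : IsClosed ({p : ℝ × ℝ | σ ≤ p.1 ∨ σ ≤ p.2} ∩ {p : ℝ × ℝ | p.1 ≤ 1 - σ ∨ p.2 ≤ 1 - σ}) := by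
    refine IsClosed.inter ?_ ?_
    · exact (isClosed_le continuous_const continuous_fst).union
        (isClosed_le continuous_const continuous_snd)
    · exact (isClosed_le continuous_fst continuous_const).union
        (isClosed_le continuous_snd continuous_const)
  have hKc : IsCompact K := by
    rw [hK]
    exact (isCompact_Icc.prod isCompact_Icc).inter_right hcl
  have hnc : Continuous (fun p : ℝ × ℝ => ‖a1 p.1 - a2 p.2‖) :=
    ((h.c1.comp continuous_fst).sub (h.c2.comp continuous_snd)).norm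
  have hmem : ∀ s ∈ Icc (0:ℝ) 1, ∀ s' ∈ Icc (0:ℝ) 1,
      ¬ ((s < σ ∧ s' < σ) ∨ (1 - σ < s ∧ 1 - σ < s')) → (s, s') ∈ K := by
    intro s hs s' hs' hn
    rw [hK]
    refine ⟨⟨hs, hs'⟩, ?_, ?_⟩
    · show σ ≤ s ∨ σ ≤ s'
      by_contra hc
      push Not at hc
      exact hn (Or.inl hc)
    · show s ≤ 1 - σ ∨ s' ≤ 1 - σ
      by_contra hc
      push Not at hc
      exact hn (Or.inr hc)
  rcases K.eq_empty_or_nonempty with he | hne
  · refine ⟨1, one_pos, fun s hs s' hs' _ => ?_⟩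
    by_contra hn
    have := hmem s hs s' hs' hn
    rw [he] at this
    exact notMem_empty _ this
  · obtain ⟨p, hp, hmin⟩ := hKc.exists_isMinOn hne hnc.continuousOn
    refine ⟨‖a1 p.1 - a2 p.2‖, ?_, fun s hs s' hs' hd => ?_⟩
    · rw [gt_iff_lt, norm_pos_iff, sub_ne_zero]
      intro heq
      rw [hK] at hp
      obtain ⟨⟨hp1, hp2⟩, hp3, hp4⟩ := hp
      have hp3' : σ ≤ p.1 ∨ σ ≤ p.2 := hp3
      have hp4' : p.1 ≤ 1 - σ ∨ p.2 ≤ 1 - σ := hp4
      rcases h.dj p.1 hp1 p.2 hp2 heq with h5 | h5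
      · rcases hp3' with h6 | h6
        · linarith [h5.1]
        · linarith [h5.2]
      · rcases hp4' with h6 | h6
        · linarith [h5.1]
        · linarith [h5.2]
    · by_contra hn
      exact absurd (hmin (hmem s hs s' hs' hn)) (not_le.2 hd)

end Pool.Agent.T2h56.GRC
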