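import Pool.Agent.T2h56.GRC.Def

/-! Graceful rectangles for the sheared arcs. -/

set_option autoImplicit false

namespace Pool.Agent.T2h56.GRC

open Set Complex T2h56.TG

theorem Quad.mono {r l l' : ℝ} {pL pB pR pT : ℂ} (h : Quad r l pL pB pR pT) (hl : l' ≤ l) :
    Quad r l' pL pB pR pT := by
  obtain ⟨h0, ⟨h1, h2⟩ | ⟨h1, h2⟩⟩ := h
  · exact ⟨h0, Or.inl ⟨h1, hl.trans h2⟩⟩
  · exact ⟨h0, Or.inr ⟨h1, hl.trans h2⟩⟩

/-- a size of parameters near the ends -/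
theorem near_ends {a1 a2 : ℝ → ℂ} (h : Arc2 a1 a2) {ρ : ℝ} (hρ : 0 < ρ) : ∃ σ > 0,
    ∀ i, ∀ s ∈ Icc (0:ℝ) 1, (s < σ → ‖arc a1 a2 i s - a1 0‖ < ρ) ∧
      (1 - σ < s → ‖arc a1 a2 i s - a1 1‖ < ρ) := by
  have key : ∀ a : ℝ → ℂ, Continuous a → ∃ σ > 0, ∀ s ∈ Icc (0:ℝ) 1,
      (s < σ → ‖a s - a 0‖ < ρ) ∧ (1 - σ < s → ‖a s - a 1‖ < ρ) := by
    intro a ha
    obtain ⟨σ0, h0, H0⟩ := Metric.continuousAt_iff.1 (ha.continuousAt (x := 0)) ρ hρ
    obtain ⟨σ1, h1, H1⟩ := Metric.continuousAt_iff.1 (ha.continuousAt (x := 1)) ρ hρ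
    refine ⟨min σ0 σ1, lt_min h0 h1, fun s hs => ⟨fun h => ?_, fun h => ?_⟩⟩
    · have := H0 (x := s) (by
        rw [Real.dist_eq, sub_zero, abs_of_nonneg hs.1]
        exact h.trans_le (min_le_left _ _))
      rwa [dist_eq_norm] at this
    · have := H1 (x := s) (by
        rw [Real.dist_eq, abs_of_nonpos (by linarith [hs.2])]
        linarith [min_le_right σ0 σ1])
      rwa [dist_eq_norm] at this
  obtain ⟨σ1, h1, H1⟩ := key a1 h.c1
  obtain ⟨σ2, h2, H2⟩ := key a2 h.c2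
  refine ⟨min σ1 σ2, lt_min h1 h2, fun i s hs => ?_⟩
  cases i
  · refine ⟨fun h3 => ?_, fun h3 => ?_⟩
    · show ‖a2 s - a1 0‖ < ρ
      rw [h.e0]
      exact (H2 s hs).1 (h3.trans_le (min_le_right _ _))
    · show ‖a2 s - a1 1‖ < ρ
      rw [h.e1]
      exact (H2 s hs).2 (by linarith [min_le_right σ1 σ2])
  · exact ⟨fun h3 => (H1 s hs).1 (h3.trans_le (min_le_left _ _)),
      fun h3 => (H1 s hs).2 (by linarith [min_le_left σ1 σ2])⟩

/-- strict monotonicity of the sheared coordinate -/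
theorem sh_lt {a1 a2 : ℝ → ℂ} (h : Arc2 a1 a2) {e : ℝ} (he : 0 < e) (i : Bool) {s s' : ℝ}
    (hs : s ∈ Icc (0:ℝ) 1) (hs' : s' ∈ Icc (0:ℝ) 1) (hlt : s < s') :
    (arc a1 a2 i s).re + e * s < (arc a1 a2 i s').re + e * s' := by
  have h1 : (arc a1 a2 i s).re ≤ (arc a1 a2 i s').re := by
    cases i
    · exact h.m2 hs hs' hlt.le
    · exact h.m1 hs hs' hlt.le
  nlinarith

/-- at the points where the sheared graphs are in the wrong order all parameters are near an end -/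
theorem bad_point {a1 a2 : ℝ → ℂ} (h : Arc2 a1 a2) {e d σ ρ : ℝ} {φ ψ : ℝ → ℝ}
    (he : 0 < e) (hed : e < d)
    (hd : ∀ s ∈ Icc (0:ℝ) 1, ∀ s' ∈ Icc (0:ℝ) 1, ‖a1 s - a2 s'‖ < d →
      (s < σ ∧ s' < σ) ∨ (1 - σ < s ∧ 1 - σ < s'))
    (hρ : 8 * ρ ≤ (a1 1).re - (a1 0).re) (heρ : e < ρ)
    (hσ : ∀ i, ∀ s ∈ Icc (0:ℝ) 1, (s < σ → ‖arc a1 a2 i s - a1 0‖ < ρ) ∧
      (1 - σ < s → ‖arc a1 a2 i s - a1 1‖ < ρ))
    (hφ : Gr a1 e φ) (hψ : Gr a2 e ψ)
    (hmid : ∀ x ∈ Icc ((a1 0).re + ((a1 1).re - (a1 0).re) / 4)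
      ((a1 1).re + e - ((a1 1).re - (a1 0).re) / 4), φ x < ψ x)
    {x : ℝ} (hx : x ∈ Icc (a1 0).re ((a1 1).re + e)) (hbad : ψ x < φ x) :
    (∀ i, ∀ s ∈ Icc (0:ℝ) 1, (arc a1 a2 i s).re + e * s ≤ x → s < σ) ∨
    (∀ i, ∀ s ∈ Icc (0:ℝ) 1, x ≤ (arc a1 a2 i s).re + e * s → 1 - σ < s) := by
  obtain ⟨a, ha⟩ : ∃ a, a = (a1 0).re := ⟨_, rfl⟩
  obtain ⟨b, hb⟩ : ∃ b, b = (a1 1).re := ⟨_, rfl⟩
  rw [← ha, ← hb] at hx hmid hρ
  have hψ2 : ∀ x ∈ Icc a (b + e), ∃ s ∈ Icc (0:ℝ) 1, x = (a2 s).re + e * s ∧ ψ x = (a2 s).im := by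
    rw [ha, hb, h.e0, h.e1]
    exact hψ.2
  have hφ2 : ∀ x ∈ Icc a (b + e), ∃ s ∈ Icc (0:ℝ) 1, x = (a1 s).re + e * s ∧ φ x = (a1 s).im := by
    rw [ha, hb]
    exact hφ.2
  have hab : a < b := by rw [ha, hb]; exact h.lt
  -- a crossing point
  have hcross : ∀ xc ∈ Icc a (b + e), φ xc = ψ xc → ∃ s1 ∈ Icc (0:ℝ) 1, ∃ s2 ∈ Icc (0:ℝ) 1,
      xc = (arc a1 a2 true s1).re + e * s1 ∧ xc = (arc a1 a2 false s2).re + e * s2 ∧
      ((s1 < σ ∧ s2 < σ) ∨ (1 - σ < s1 ∧ 1 - σ < s2)) := by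
    intro xc hxc hfg
    obtain ⟨s1, hs1, x1, y1⟩ := hφ2 xc hxc
    obtain ⟨s2, hs2, x2, y2⟩ := hψ2 xc hxc
    refine ⟨s1, hs1, s2, hs2, x1, x2, hd s1 hs1 s2 hs2 ?_⟩
    have : a1 s1 - a2 s2 = ((e * (s2 - s1) : ℝ) : ℂ) := by
      apply Complex.ext
      · rw [Complex.sub_re, Complex.ofReal_re]; linarith
      · rw [Complex.sub_im, Complex.ofReal_im]; linarith
    rw [this, Complex.norm_real, Real.norm_eq_abs, abs_mul, abs_of_pos he]
    have : |s2 - s1| ≤ 1 := by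
      rw [abs_le]; constructor <;> linarith [hs1.1, hs1.2, hs2.1, hs2.2]
    nlinarith
  have hcont : Continuous fun t => φ t - ψ t := hφ.1.sub hψ.1
  rcases lt_or_ge x (a + (b - a) / 4) with hlt | hge
  · left
    -- crossing between `x` and `a + (b - a) / 4`
    have h1 : φ (a + (b - a) / 4) < ψ (a + (b - a) / 4) := hmid _ ⟨le_rfl, by linarith⟩
    obtain ⟨xc, hxc, hfg⟩ : (0:ℝ) ∈ (fun t => φ t - ψ t) '' Icc x (a + (b - a) / 4) :=
      intermediate_value_Icc' hlt.le hcont.continuousOn ⟨by linarith, by linarith⟩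
    have hfg' : φ xc = ψ xc := by
      have : φ xc - ψ xc = 0 := hfg
      linarith
    obtain ⟨s1, hs1, s2, hs2, x1, x2, h3 | h3⟩ := hcross xc
      ⟨hx.1.trans hxc.1, by linarith [hxc.2]⟩ hfg'
    · intro i s hs hxs
      by_contra hn
      push Not at hn
      cases i
      · have := sh_lt h he false hs2 hs (h3.2.trans_le hn)
        linarith [hxc.1]
      · have := sh_lt h he true hs1 hs (h3.1.trans_le hn)
        linarith [hxc.1]
    · exfalso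
      have h4 := (hσ true s1 hs1).2 h3.1
      have h5 := (Complex.abs_re_le_norm _).trans_lt h4
      rw [Complex.sub_re, ← hb, abs_lt] at h5
      have h6 : 0 ≤ e * s1 := mul_nonneg he.le hs1.1
      linarith [hxc.2]
  · rcases le_or_gt x (b + e - (b - a) / 4) with hle | hgt
    · exact absurd (hmid x ⟨hge, hle⟩) (not_lt.2 hbad.le)
    · right
      have h1 : φ (b + e - (b - a) / 4) < ψ (b + e - (b - a) / 4) := hmid _ ⟨by linarith, le_rfl⟩
      obtain ⟨xc, hxc, hfg⟩ : (0:ℝ) ∈ (fun t => φ t - ψ t) '' Icc (b + e - (b - a) / 4) x :=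
        intermediate_value_Icc hgt.le hcont.continuousOn ⟨by linarith, by linarith⟩
      have hfg' : φ xc = ψ xc := by
        have : φ xc - ψ xc = 0 := hfg
        linarith
      obtain ⟨s1, hs1, s2, hs2, x1, x2, h3 | h3⟩ := hcross xc
        ⟨by linarith [hxc.1], hxc.2.trans hx.2⟩ hfg'
      · exfalso
        have h4 := (hσ true s1 hs1).1 h3.1
        have h5 := (Complex.abs_re_le_norm _).trans_lt h4
        rw [Complex.sub_re, ← ha, abs_lt] at h5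
        have h6 : e * s1 ≤ e := by nlinarith [hs1.2]
        linarith [hxc.1]
      · intro i s hs hxs
        by_contra hn
        push Not at hn
        cases i
        · have := sh_lt h he false hs hs2 (hn.trans_lt h3.2)
          linarith [hxc.2]
        · have := sh_lt h he true hs hs1 (hn.trans_lt h3.1)
          linarith [hxc.2]

set_option maxHeartbeats 1000000 in
theorem gue_aux {a1 a2 : ℝ → ℂ} {r : ℝ}
    {x0 y0 δ h e0 : ℝ} (hA : Arc2 a1 a2) (hr : 0 < r) (hU : UBox a1 a2 r x0 y0 δ h e0) :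
    GUE a1 a2 r := by
  obtain ⟨hδ, hh, he0, hxa, hxb, hδr, hrδ, hb1, hb2⟩ := id hU
  have hm0 : 0 < min (h * δ) (r * δ ^ 2 / 2) := lt_min (by positivity) (by positivity)
  obtain ⟨k, hk⟩ : ∃ k, k = min (h * δ) (r * δ ^ 2 / 2) / 2 := ⟨_, rfl⟩
  have hk0 : 0 < k := by rw [hk]; positivity
  obtain ⟨e1, he1, l, hl, H⟩ := usize a1 a2 r x0 y0 δ h e0 k hr hA hU hk0
  obtain ⟨l', hl'⟩ : ∃ l', l' = l / (1 + r) := ⟨_, rfl⟩
  have hl'0 : 0 < l' := by rw [hl']; positivity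
  have hab := hA.lt
  obtain ⟨ρ, hρ⟩ : ∃ ρ, ρ = min (min 1 r * l') ((a1 1).re - (a1 0).re) / 8 := ⟨_, rfl⟩
  have hml : 0 < min 1 r * l' := mul_pos (lt_min one_pos hr) hl'0
  have hρ0 : 0 < ρ := by
    rw [hρ]
    have := lt_min hml (sub_pos.2 hab)
    linarith
  have hρ1 : 8 * ρ ≤ min 1 r * l' := by
    rw [hρ]
    have := min_le_left (min 1 r * l') ((a1 1).re - (a1 0).re)
    linarith
  have hρ2 : 8 * ρ ≤ (a1 1).re - (a1 0).re := by
    rw [hρ]
    have := min_le_right (min 1 r * l') ((a1 1).re - (a1 0).re)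
    linarith
  obtain ⟨σ, hσ0, hσ⟩ := near_ends hA hρ0
  obtain ⟨d, hd0, hd⟩ := sep2 hA hσ0
  obtain ⟨e2, he2, hmid⟩ := t_UMID t_USEP a1 a2 r x0 y0 δ h e0 hA hU
    (((a1 1).re - (a1 0).re) / 4) (by linarith)
  refine ⟨l', hl'0, min (min e1 e0) (min (min d e2) ρ),
    lt_min (lt_min he1 he0) (lt_min (lt_min hd0 he2) hρ0), fun e he => ?_⟩
  obtain ⟨hepos, hemin⟩ := he
  have hee1 : e < e1 := hemin.trans_le ((min_le_left _ _).trans (min_le_left _ _))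
  have hee0 : e < e0 := hemin.trans_le ((min_le_left _ _).trans (min_le_right _ _))
  have hed : e < d := hemin.trans_le ((min_le_right _ _).trans ((min_le_left _ _).trans (min_le_left _ _)))
  have hee2 : e < e2 := hemin.trans_le ((min_le_right _ _).trans ((min_le_left _ _).trans (min_le_right _ _)))
  have heρ : e < ρ := hemin.trans_le ((min_le_right _ _).trans (min_le_right _ _))
  obtain ⟨φ, hφ, hφ0, hφ1⟩ := t_UARC a1 hA.c1 hA.m1 e hepos
  obtain ⟨ψ, hψ, hψ0, hψ1⟩ := t_UARC a2 hA.c2 hA.m2 e hepos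
  rw [← hA.e0] at hψ0
  rw [← hA.e1] at hψ1
  let D : Dat :=
    { a := (a1 0).re
      b := (a1 1).re + e
      r := r
      f := fun x => min (φ x) (ψ x)
      g := fun x => max (φ x) (ψ x)
      ab := by linarith [hA.lt, hepos]
      r0 := hr
      cf := hφ.1.min hψ.1
      cg := hφ.1.max hψ.1
      fg := fun x _ => min_le_max
      ea := by simp only [hφ0, hψ0, min_self, max_self]
      eb := by simp only [hφ1, hψ1, min_self, max_self] }
  have hφ2 : ∀ x ∈ Icc D.a D.b, ∃ s ∈ Icc (0:ℝ) 1, x = (a1 s).re + e * s ∧ φ x = (a1 s).im := hφ.2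
  have hψ2 : ∀ x ∈ Icc D.a D.b, ∃ s ∈ Icc (0:ℝ) 1, x = (a2 s).re + e * s ∧ ψ x = (a2 s).im := by
    show ∀ x ∈ Icc (a1 0).re ((a1 1).re + e), _
    rw [hA.e0, hA.e1]
    exact hψ.2
  have onφ : ∀ p : ℂ, p.re ∈ Icc D.a D.b → p.im = φ p.re → ∃ s ∈ Icc (0:ℝ) 1, p = sh e a1 s := by
    intro p hp h2
    obtain ⟨s, hs, h3, h4⟩ := hφ2 p.re hp
    refine ⟨s, hs, Complex.ext ?_ ?_⟩
    · rw [sh, Complex.add_re, Complex.ofReal_re]; exact h3
    · rw [sh, Complex.add_im, Complex.ofReal_im, add_zero, h2, h4]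
  have onψ : ∀ p : ℂ, p.re ∈ Icc D.a D.b → p.im = ψ p.re → ∃ s ∈ Icc (0:ℝ) 1, p = sh e a2 s := by
    intro p hp h2
    obtain ⟨s, hs, h3, h4⟩ := hψ2 p.re hp
    refine ⟨s, hs, Complex.ext ?_ ?_⟩
    · rw [sh, Complex.add_re, Complex.ofReal_re]; exact h3
    · rw [sh, Complex.add_im, Complex.ofReal_im, add_zero, h2, h4]
  have hvert : ∀ p : ℂ, p.re ∈ Icc D.a D.b → (p.im = D.f p.re ∨ p.im = D.g p.re) →
      ∃ i : Bool, ∃ s ∈ Icc (0:ℝ) 1, p = sh e (arc a1 a2 i) s := by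
    intro p hp h1
    have h2 : p.im = φ p.re ∨ p.im = ψ p.re := by
      rcases h1 with h1 | h1
      · rw [h1]
        show min (φ p.re) (ψ p.re) = φ p.re ∨ min (φ p.re) (ψ p.re) = ψ p.re
        exact min_choice _ _
      · rw [h1]
        show max (φ p.re) (ψ p.re) = φ p.re ∨ max (φ p.re) (ψ p.re) = ψ p.re
        exact max_choice _ _
    rcases h2 with h2 | h2
    · obtain ⟨s, hs, h3⟩ := onφ p hp h2
      exact ⟨true, s, hs, h3⟩
    · obtain ⟨s, hs, h3⟩ := onψ p hp h2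
      exact ⟨false, s, hs, h3⟩
  obtain ⟨K1, K2⟩ := H e ⟨hepos, hee1⟩ φ ψ hφ hψ D rfl rfl rfl (fun _ => rfl) (fun _ => rfl)
  obtain ⟨y, hy, hR, hx, hz, hy1, hy2⟩ := core D x0 y0 δ h k hδ hh hxa
    (hxb.trans (by show (a1 1).re ≤ (a1 1).re + e; linarith [hepos])) (by
      intro x hx
      have hxm : x ∈ Icc (a1 0).re ((a1 1).re + e) :=
        ⟨hxa.trans hx.1, by linarith [hx.2, hepos]⟩
      constructor
      · refine (min_le_left _ _).trans ?_
        obtain ⟨s, hs, h3, h4⟩ := hφ.2 x hxm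
        rw [h4]
        refine hb1 s hs ?_
        rw [abs_le]
        have : e * s ≤ e := mul_le_of_le_one_right hepos.le hs.2
        have : 0 ≤ e * s := mul_nonneg hepos.le hs.1
        constructor <;> linarith [hx.1, hx.2]
      · refine le_trans ?_ (le_max_right _ _)
        obtain ⟨s, hs, h3, h4⟩ := hψ.2 x (by rw [← hA.e0, ← hA.e1]; exact hxm)
        rw [h4]
        refine hb2 s hs ?_
        rw [abs_le]
        have : e * s ≤ e := mul_le_of_le_one_right hepos.le hs.2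
        have : 0 ≤ e * s := mul_nonneg hepos.le hs.1
        constructor <;> linarith [hx.1, hx.2]) hδr hrδ hk0
      (by rw [hk]; show _ < min (h * δ) (r * δ ^ 2 / 2); linarith) K1
  have hl2 := K2 y hy hR hx hz hy1 hy2
  obtain ⟨pL, pB, pR, pT, hq, yB, yT, yL, yR, xL, xB, xR, xT, oLB, oLT, oBR, oTR⟩ := rect_quad hy hR
  have hq' : Quad r l' pL pB pR pT := by
    refine Quad.mono hq ?_
    rw [hl']
    show l / (1 + r) ≤ (y.2.1 - y.1) / (1 + r)
    gcongr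
  obtain ⟨dTL, dBL, dRT, dRB⟩ := hq'.sides hr hl'0.le
  obtain ⟨i, sL, hsL, eL⟩ := hvert pL xL yL
  obtain ⟨j, sR, hsR, eR⟩ := hvert pR xR yR
  have reS : ∀ (i : Bool) (s : ℝ) (p : ℂ), p = sh e (arc a1 a2 i) s →
      p.re = (arc a1 a2 i s).re + e * s := by
    intro i s p hp
    rw [hp, sh, Complex.add_re, Complex.ofReal_re]
  have near0 : ∀ (i : Bool) (s : ℝ) (p : ℂ), s ∈ Icc (0:ℝ) 1 → p = sh e (arc a1 a2 i) s → s < σ →
      ‖p - a1 0‖ < 2 * ρ := by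
    intro i s p hs hp hsσ
    have h1 := (hσ i s hs).1 hsσ
    rw [hp, sh, show arc a1 a2 i s + ((e * s : ℝ) : ℂ) - a1 0 = (arc a1 a2 i s - a1 0) + ((e * s : ℝ) : ℂ)
      by ring]
    refine (norm_add_le _ _).trans_lt ?_
    rw [Complex.norm_real, Real.norm_eq_abs, abs_of_nonneg (mul_nonneg hepos.le hs.1)]
    have h2 : e * s ≤ e := mul_le_of_le_one_right hepos.le hs.2
    linarith
  have near1 : ∀ (i : Bool) (s : ℝ) (p : ℂ), s ∈ Icc (0:ℝ) 1 → p = sh e (arc a1 a2 i) s →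
      1 - σ < s → ‖p - a1 1‖ < 2 * ρ := by
    intro i s p hs hp hsσ
    have h1 := (hσ i s hs).2 hsσ
    rw [hp, sh, show arc a1 a2 i s + ((e * s : ℝ) : ℂ) - a1 1 = (arc a1 a2 i s - a1 1) + ((e * s : ℝ) : ℂ)
      by ring]
    refine (norm_add_le _ _).trans_lt ?_
    rw [Complex.norm_real, Real.norm_eq_abs, abs_of_nonneg (mul_nonneg hepos.le hs.1)]
    have h2 : e * s ≤ e := mul_le_of_le_one_right hepos.le hs.2
    linarith
  -- a vertex between the left and the right vertex is not at a bad place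
  have good : ∀ p : ℂ, p.re ∈ Icc D.a D.b → pL.re ≤ p.re → p.re ≤ pR.re →
      min 1 r * l' ≤ ‖p - pL‖ → min 1 r * l' ≤ ‖pR - p‖ →
      (p.im = D.f p.re ∨ p.im = D.g p.re) → φ p.re ≤ ψ p.re := by
    intro p xp h1 h2 h3 h4 h5
    by_contra hbad
    push Not at hbad
    obtain ⟨m, s, hs, hp⟩ := hvert p xp h5
    rcases bad_point hA hepos hed hd hρ2 heρ hσ hφ hψ
      (hmid e ⟨hepos, hee2⟩ φ ψ hφ hψ) xp hbad with h6 | h6
    · have g1 := near0 m s p hs hp (h6 m s hs (reS m s p hp).ge)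
      have g2 := near0 i sL pL hsL eL (h6 i sL hsL (by rw [← reS i sL pL eL]; exact h1))
      have g3 : ‖p - pL‖ ≤ ‖p - a1 0‖ + ‖pL - a1 0‖ := by
        calc ‖p - pL‖ = ‖(p - a1 0) - (pL - a1 0)‖ := by congr 1; ring
          _ ≤ _ := norm_sub_le _ _
      linarith
    · have g1 := near1 m s p hs hp (h6 m s hs (reS m s p hp).le)
      have g2 := near1 j sR pR hsR eR (h6 j sR hsR (by rw [← reS j sR pR eR]; exact h2))
      have g3 : ‖pR - p‖ ≤ ‖pR - a1 1‖ + ‖p - a1 1‖ := by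
        calc ‖pR - p‖ = ‖(pR - a1 1) - (p - a1 1)‖ := by congr 1; ring
          _ ≤ _ := norm_sub_le _ _
      linarith
  have gT := good pT xT oLT oTR dTL dRT (Or.inr yT)
  have gB := good pB xB oLB oBR dBL dRB (Or.inl yB)
  obtain ⟨sT, hsT, eT⟩ := onψ pT xT (by rw [yT]; exact max_eq_right gT)
  obtain ⟨sB, hsB, eB⟩ := onφ pB xB (by rw [yB]; exact min_eq_left gB)
  have reT := reS false sT pT eT
  have reB := reS true sB pB eB
  have reL := reS i sL pL eL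
  have reR := reS j sR pR eR
  refine ⟨i, j, sL, sB, sR, sT, ⟨hsL, hsB, hsR, hsT, ?_, ?_, ?_, ?_⟩, by
    rw [← eL, ← eB, ← eR, ← eT]; exact hq'⟩
  · rintro rfl
    by_contra hn
    push Not at hn
    have := sh_lt hA hepos true hsB hsL hn
    linarith
  · rintro rfl
    by_contra hn
    push Not at hn
    have := sh_lt hA hepos false hsT hsL hn
    linarith
  · rintro rfl
    by_contra hn
    push Not at hn
    have := sh_lt hA hepos true hsR hsB hn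
    linarith
  · rintro rfl
    by_contra hn
    push Not at hn
    have := sh_lt hA hepos false hsR hsT hn
    linarith

theorem gue {a1 a2 : ℝ → ℂ} {r : ℝ} (hA : Arc2 a1 a2) (hr : 0 < r) :
    GUE a1 a2 r ∨ GUE a2 a1 r := by
  obtain ⟨x0, y0, δ, h, e0, hU | hU⟩ := t_UBOX a1 a2 hA r hr
  · exact Or.inl (gue_aux hA hr hU)
  · exact Or.inr (gue_aux hA.symm hr hU)

end Pool.Agent.T2h56.GRC
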