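import Pool.Agent.T2h56.GRC.Gue

/-! Graceful rectangles for two arcs: the limit. -/

set_option autoImplicit false

namespace Pool.Agent.T2h56.GRC

open Set Complex T2h56.TG

theorem arc_cont {a1 a2 : ℝ → ℂ} (hA : Arc2 a1 a2) (i : Bool) : Continuous (arc a1 a2 i) := by
  cases i
  · exact hA.c2
  · exact hA.c1

/-- the first side -/
def side (a1 a2 : ℝ → ℂ) (i j k : Bool) (x : ℝ × ℝ × ℝ × ℝ) : ℂ :=
  if k then arc a1 a2 j x.2.2.1 - a1 x.2.1 else a1 x.2.1 - arc a1 a2 i x.1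

/-- the second side -/
def side' (a1 a2 : ℝ → ℂ) (i k : Bool) (x : ℝ × ℝ × ℝ × ℝ) : ℂ :=
  if k then arc a1 a2 i x.1 - a1 x.2.1 else a2 x.2.2.2 - arc a1 a2 i x.1

/-- the defect -/
noncomputable def dfc (a1 a2 : ℝ → ℂ) (r : ℝ) (i j k : Bool) (x : ℝ × ℝ × ℝ × ℝ) : ℝ :=
  ‖arc a1 a2 i x.1 + arc a1 a2 j x.2.2.1 - (a1 x.2.1 + a2 x.2.2.2)‖ +
    ‖side' a1 a2 i k x - r * I * side a1 a2 i j k x‖

theorem side_cont {a1 a2 : ℝ → ℂ} (hA : Arc2 a1 a2) (i j k : Bool) :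
    Continuous (side a1 a2 i j k) := by
  have h1 := hA.c1.comp (continuous_fst.comp (continuous_snd (X := ℝ) (Y := ℝ × ℝ × ℝ)))
  have h2 := (arc_cont hA i).comp (continuous_fst (X := ℝ) (Y := ℝ × ℝ × ℝ))
  have h3 := (arc_cont hA j).comp (continuous_fst.comp (continuous_snd.comp
    (continuous_snd (X := ℝ) (Y := ℝ × ℝ × ℝ))))
  cases k
  · exact h1.sub h2
  · exact h3.sub h1

theorem side'_cont {a1 a2 : ℝ → ℂ} (hA : Arc2 a1 a2) (i k : Bool) :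
    Continuous (side' a1 a2 i k) := by
  have h1 := hA.c1.comp (continuous_fst.comp (continuous_snd (X := ℝ) (Y := ℝ × ℝ × ℝ)))
  have h2 := (arc_cont hA i).comp (continuous_fst (X := ℝ) (Y := ℝ × ℝ × ℝ))
  have h3 := hA.c2.comp (continuous_snd.comp (continuous_snd.comp
    (continuous_snd (X := ℝ) (Y := ℝ × ℝ × ℝ))))
  cases k
  · exact h3.sub h2
  · exact h2.sub h1

theorem dfc_cont {a1 a2 : ℝ → ℂ} (hA : Arc2 a1 a2) (r : ℝ) (i j k : Bool) :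
    Continuous (dfc a1 a2 r i j k) := by
  have h1 := hA.c1.comp (continuous_fst.comp (continuous_snd (X := ℝ) (Y := ℝ × ℝ × ℝ)))
  have h2 := (arc_cont hA i).comp (continuous_fst (X := ℝ) (Y := ℝ × ℝ × ℝ))
  have h3 := (arc_cont hA j).comp (continuous_fst.comp (continuous_snd.comp
    (continuous_snd (X := ℝ) (Y := ℝ × ℝ × ℝ))))
  have h4 := hA.c2.comp (continuous_snd.comp (continuous_snd.comp
    (continuous_snd (X := ℝ) (Y := ℝ × ℝ × ℝ))))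
  exact ((h2.add h3).sub (h1.add h4)).norm.add
    ((side'_cont hA i k).sub (continuous_const.mul (side_cont hA i j k))).norm

/-- the admitted parameters -/
def KK (a1 a2 : ℝ → ℂ) (l : ℝ) (i j k : Bool) : Set (ℝ × ℝ × ℝ × ℝ) :=
  {x | Ord i j x.1 x.2.1 x.2.2.1 x.2.2.2 ∧ l ≤ ‖side a1 a2 i j k x‖}

theorem KK_compact {a1 a2 : ℝ → ℂ} (hA : Arc2 a1 a2) (l : ℝ) (i j k : Bool) :
    IsCompact (KK a1 a2 l i j k) := by
  have c1 : Continuous fun x : ℝ × ℝ × ℝ × ℝ => x.1 := continuous_fst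
  have c2 : Continuous fun x : ℝ × ℝ × ℝ × ℝ => x.2.1 := continuous_fst.comp continuous_snd
  have c3 : Continuous fun x : ℝ × ℝ × ℝ × ℝ => x.2.2.1 :=
    continuous_fst.comp (continuous_snd.comp continuous_snd)
  have c4 : Continuous fun x : ℝ × ℝ × ℝ × ℝ => x.2.2.2 :=
    continuous_snd.comp (continuous_snd.comp continuous_snd)
  have hbox : IsCompact ((Icc (0:ℝ) 1) ×ˢ ((Icc (0:ℝ) 1) ×ˢ ((Icc (0:ℝ) 1) ×ˢ (Icc (0:ℝ) 1)))) :=
    isCompact_Icc.prod (isCompact_Icc.prod (isCompact_Icc.prod isCompact_Icc))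
  have hi : IsClosed {x : ℝ × ℝ × ℝ × ℝ | (i = true → x.1 ≤ x.2.1) ∧ (i = false → x.1 ≤ x.2.2.2)} := by
    cases i
    · have : {x : ℝ × ℝ × ℝ × ℝ | (false = true → x.1 ≤ x.2.1) ∧ (false = false → x.1 ≤ x.2.2.2)} =
          {x | x.1 ≤ x.2.2.2} := by
        ext x
        exact ⟨fun h => h.2 rfl, fun h => ⟨fun h' => by simp at h', fun _ => h⟩⟩
      rw [this]
      exact isClosed_le c1 c4
    · have : {x : ℝ × ℝ × ℝ × ℝ | (true = true → x.1 ≤ x.2.1) ∧ (true = false → x.1 ≤ x.2.2.2)} =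
          {x | x.1 ≤ x.2.1} := by
        ext x
        exact ⟨fun h => h.1 rfl, fun h => ⟨fun _ => h, fun h' => by simp at h'⟩⟩
      rw [this]
      exact isClosed_le c1 c2
  have hj : IsClosed {x : ℝ × ℝ × ℝ × ℝ | (j = true → x.2.1 ≤ x.2.2.1) ∧
      (j = false → x.2.2.2 ≤ x.2.2.1)} := by
    cases j
    · have : {x : ℝ × ℝ × ℝ × ℝ | (false = true → x.2.1 ≤ x.2.2.1) ∧
          (false = false → x.2.2.2 ≤ x.2.2.1)} = {x | x.2.2.2 ≤ x.2.2.1} := by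
        ext x
        exact ⟨fun h => h.2 rfl, fun h => ⟨fun h' => by simp at h', fun _ => h⟩⟩
      rw [this]
      exact isClosed_le c4 c3
    · have : {x : ℝ × ℝ × ℝ × ℝ | (true = true → x.2.1 ≤ x.2.2.1) ∧
          (true = false → x.2.2.2 ≤ x.2.2.1)} = {x | x.2.1 ≤ x.2.2.1} := by
        ext x
        exact ⟨fun h => h.1 rfl, fun h => ⟨fun _ => h, fun h' => by simp at h'⟩⟩
      rw [this]
      exact isClosed_le c2 c3
  have hk : IsClosed {x : ℝ × ℝ × ℝ × ℝ | l ≤ ‖side a1 a2 i j k x‖} :=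
    isClosed_le continuous_const (side_cont hA i j k).norm
  refine (hbox.inter_right ((hi.inter hj).inter hk)).of_isClosed_subset ?_ ?_
  · have : KK a1 a2 l i j k = ((Icc (0:ℝ) 1) ×ˢ ((Icc (0:ℝ) 1) ×ˢ ((Icc (0:ℝ) 1) ×ˢ (Icc (0:ℝ) 1)))) ∩
        (({x : ℝ × ℝ × ℝ × ℝ | (i = true → x.1 ≤ x.2.1) ∧ (i = false → x.1 ≤ x.2.2.2)} ∩
          {x : ℝ × ℝ × ℝ × ℝ | (j = true → x.2.1 ≤ x.2.2.1) ∧ (j = false → x.2.2.2 ≤ x.2.2.1)}) ∩
          {x : ℝ × ℝ × ℝ × ℝ | l ≤ ‖side a1 a2 i j k x‖}) := by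
      ext x
      constructor
      · rintro ⟨⟨h1, h2, h3, h4, h5, h6, h7, h8⟩, h9⟩
        exact ⟨⟨h1, h2, h3, h4⟩, ⟨⟨h5, h6⟩, ⟨h7, h8⟩⟩, h9⟩
      · rintro ⟨⟨h1, h2, h3, h4⟩, ⟨⟨h5, h6⟩, ⟨h7, h8⟩⟩, h9⟩
        exact ⟨⟨h1, h2, h3, h4, h5, h6, h7, h8⟩, h9⟩
    rw [this]
    exact hbox.isClosed.inter ((hi.inter hj).inter hk)
  · rintro x ⟨⟨h1, h2, h3, h4, h5, h6, h7, h8⟩, h9⟩
    exact ⟨⟨h1, h2, h3, h4⟩, ⟨⟨h5, h6⟩, ⟨h7, h8⟩⟩, h9⟩

theorem gtwo_of_gue {a1 a2 : ℝ → ℂ} {r : ℝ} (hA : Arc2 a1 a2) (hr : 0 < r)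
    (h : GUE a1 a2 r) : GTWO a1 a2 r := by
  obtain ⟨l, hl, e1, he1, H⟩ := h
  by_contra hno
  have key : ∀ p : Bool × Bool × Bool, ∃ δ > 0, ∀ x ∈ KK a1 a2 (l / 2) p.1 p.2.1 p.2.2,
      δ ≤ dfc a1 a2 r p.1 p.2.1 p.2.2 x := by
    rintro ⟨i, j, k⟩
    simp only
    rcases (KK a1 a2 (l / 2) i j k).eq_empty_or_nonempty with he | hne
    · refine ⟨1, one_pos, fun x hx => ?_⟩
      rw [he] at hx
      exact absurd hx (notMem_empty _)
    · obtain ⟨x, hx, hmin⟩ := (KK_compact hA (l / 2) i j k).exists_isMinOn hne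
        (dfc_cont hA r i j k).continuousOn
      refine ⟨dfc a1 a2 r i j k x, ?_, fun y hy => hmin hy⟩
      by_contra hle
      push Not at hle
      have n1 := norm_nonneg (arc a1 a2 i x.1 + arc a1 a2 j x.2.2.1 - (a1 x.2.1 + a2 x.2.2.2))
      have n2 := norm_nonneg (side' a1 a2 i k x - r * I * side a1 a2 i j k x)
      have hle' : ‖arc a1 a2 i x.1 + arc a1 a2 j x.2.2.1 - (a1 x.2.1 + a2 x.2.2.2)‖ +
        ‖side' a1 a2 i k x - r * I * side a1 a2 i j k x‖ ≤ 0 := hle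
      have z1 : arc a1 a2 i x.1 + arc a1 a2 j x.2.2.1 - (a1 x.2.1 + a2 x.2.2.2) = 0 :=
        norm_eq_zero.1 (by linarith)
      have z2 : side' a1 a2 i k x - r * I * side a1 a2 i j k x = 0 := norm_eq_zero.1 (by linarith)
      refine hno ⟨l / 2, half_pos hl, i, j, x.1, x.2.1, x.2.2.1, x.2.2.2, hx.1, sub_eq_zero.1 z1, ?_⟩
      have hx2 := hx.2
      cases k
      · exact Or.inr ⟨sub_eq_zero.1 z2, hx2⟩
      · exact Or.inl ⟨sub_eq_zero.1 z2, hx2⟩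
  choose δ hδ0 hδ using key
  obtain ⟨p0, hp0⟩ := Finite.exists_min δ
  have hr3 : 0 < 3 + r := by linarith
  obtain ⟨e, hee⟩ : ∃ e, e = min (e1 / 2) (min (l / 2) (δ p0 / (2 * (3 + r)))) := ⟨_, rfl⟩
  have he0 : 0 < e := by
    rw [hee]
    exact lt_min (half_pos he1) (lt_min (half_pos hl) (by have := hδ0 p0; positivity))
  have hee1 : e < e1 := by
    rw [hee]
    exact (min_le_left _ _).trans_lt (by linarith)
  have hel : e ≤ l / 2 := by
    rw [hee]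
    exact (min_le_right _ _).trans (min_le_left _ _)
  have heδ : (3 + r) * e < δ p0 := by
    have h1 : e ≤ δ p0 / (2 * (3 + r)) := by
      rw [hee]
      exact (min_le_right _ _).trans (min_le_right _ _)
    have h2 := hδ0 p0
    rw [le_div_iff₀ (by linarith)] at h1
    linarith
  obtain ⟨i, j, sL, sB, sR, sT, ho, hq0, hq⟩ := H e ⟨he0, hee1⟩
  obtain ⟨hsL, hsB, hsR, hsT, -, -, -, -⟩ := id ho
  have nrm : ∀ x : ℝ, |x| ≤ 1 → ‖((e * x : ℝ) : ℂ)‖ ≤ e := by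
    intro x hx
    rw [Complex.norm_real, Real.norm_eq_abs, abs_mul, abs_of_pos he0]
    nlinarith
  have nrm2 : ∀ x : ℝ, |x| ≤ 2 → ‖((e * x : ℝ) : ℂ)‖ ≤ 2 * e := by
    intro x hx
    rw [Complex.norm_real, Real.norm_eq_abs, abs_mul, abs_of_pos he0]
    nlinarith
  have nrI : ∀ x : ℝ, |x| ≤ 1 → ‖r * I * ((e * x : ℝ) : ℂ)‖ ≤ r * e := by
    intro x hx
    rw [norm_mul, norm_mul, norm_I, mul_one, Complex.norm_real, Real.norm_eq_abs, abs_of_pos hr]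
    exact mul_le_mul_of_nonneg_left (nrm x hx) hr.le
  have d1 : ‖arc a1 a2 i sL + arc a1 a2 j sR - (a1 sB + a2 sT)‖ ≤ 2 * e := by
    have : arc a1 a2 i sL + arc a1 a2 j sR - (a1 sB + a2 sT) =
        ((e * (sB + sT - sL - sR) : ℝ) : ℂ) := by
      simp only [sh] at hq0
      push_cast at hq0 ⊢
      linear_combination hq0
    rw [this]
    refine nrm2 _ ?_
    rw [abs_le]
    constructor <;> linarith [hsL.1, hsL.2, hsB.1, hsB.2, hsR.1, hsR.2, hsT.1, hsT.2]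
  have absd : ∀ s ∈ Icc (0:ℝ) 1, ∀ s' ∈ Icc (0:ℝ) 1, |s - s'| ≤ 1 := by
    intro s hs s' hs'
    rw [abs_le]
    constructor <;> linarith [hs.1, hs.2, hs'.1, hs'.2]
  rcases hq with ⟨h1, h2⟩ | ⟨h1, h2⟩
  · have hx : (sL, sB, sR, sT) ∈ KK a1 a2 (l / 2) i j true := by
      refine ⟨ho, ?_⟩
      show l / 2 ≤ ‖arc a1 a2 j sR - a1 sB‖
      have e1 : sh e (arc a1 a2 j) sR - sh e a1 sB =
          (arc a1 a2 j sR - a1 sB) + ((e * (sR - sB) : ℝ) : ℂ) := by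
        simp only [sh]; push_cast; ring
      rw [e1] at h2
      have e2 := h2.trans (norm_add_le _ _)
      linarith [nrm _ (absd sR hsR sB hsB)]
    have hD := (hp0 (i, j, true)).trans (hδ (i, j, true) _ hx)
    have d2 : ‖(arc a1 a2 i sL - a1 sB) - r * I * (arc a1 a2 j sR - a1 sB)‖ ≤ (1 + r) * e := by
      have : (arc a1 a2 i sL - a1 sB) - r * I * (arc a1 a2 j sR - a1 sB) =
          ((e * (sB - sL) : ℝ) : ℂ) - r * I * ((e * (sB - sR) : ℝ) : ℂ) := by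
        simp only [sh] at h1
        push_cast at h1 ⊢
        linear_combination h1
      rw [this]
      refine (norm_sub_le _ _).trans ?_
      linarith [nrm _ (absd sB hsB sL hsL), nrI _ (absd sB hsB sR hsR)]
    have hD' : δ p0 ≤ ‖arc a1 a2 i sL + arc a1 a2 j sR - (a1 sB + a2 sT)‖ +
      ‖(arc a1 a2 i sL - a1 sB) - r * I * (arc a1 a2 j sR - a1 sB)‖ := hD
    linarith
  · have hx : (sL, sB, sR, sT) ∈ KK a1 a2 (l / 2) i j false := by
      refine ⟨ho, ?_⟩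
      show l / 2 ≤ ‖a1 sB - arc a1 a2 i sL‖
      have e1 : sh e a1 sB - sh e (arc a1 a2 i) sL =
          (a1 sB - arc a1 a2 i sL) + ((e * (sB - sL) : ℝ) : ℂ) := by
        simp only [sh]; push_cast; ring
      rw [e1] at h2
      have e2 := h2.trans (norm_add_le _ _)
      linarith [nrm _ (absd sB hsB sL hsL)]
    have hD := (hp0 (i, j, false)).trans (hδ (i, j, false) _ hx)
    have d2 : ‖(a2 sT - arc a1 a2 i sL) - r * I * (a1 sB - arc a1 a2 i sL)‖ ≤ (1 + r) * e := by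
      have : (a2 sT - arc a1 a2 i sL) - r * I * (a1 sB - arc a1 a2 i sL) =
          ((e * (sL - sT) : ℝ) : ℂ) - r * I * ((e * (sL - sB) : ℝ) : ℂ) := by
        simp only [sh] at h1
        push_cast at h1 ⊢
        linear_combination h1
      rw [this]
      refine (norm_sub_le _ _).trans ?_
      linarith [nrm _ (absd sL hsL sT hsT), nrI _ (absd sL hsL sB hsB)]
    have hD' : δ p0 ≤ ‖arc a1 a2 i sL + arc a1 a2 j sR - (a1 sB + a2 sT)‖ +
      ‖(a2 sT - arc a1 a2 i sL) - r * I * (a1 sB - arc a1 a2 i sL)‖ := hD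
    linarith

theorem gtwo {a1 a2 : ℝ → ℂ} {r : ℝ} (hA : Arc2 a1 a2) (hr : 0 < r) :
    GTWO a1 a2 r ∨ GTWO a2 a1 r := by
  rcases gue hA hr with h | h
  · exact Or.inl (gtwo_of_gue hA hr h)
  · exact Or.inr (gtwo_of_gue hA.symm hr h)

end Pool.Agent.T2h56.GRC
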