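import Pool.Agent.T2h56.GRC.Lim

/-! Graceful rectangles in Jordan curves with a coordinate which is monotone on two arcs. -/

set_option autoImplicit false

namespace Pool.Agent.T2h56.GRC

open Set Complex T2h56.TG

/-- four parameters in cyclic order give the consecutive vertices of a rectangle -/
def HasGr (c : ℝ → ℂ) (r : ℝ) : Prop := ∃ (t₁ t₂ t₃ t₄ : ℝ) (u v : ℂ),
  t₁ < t₂ ∧ t₂ < t₃ ∧ t₃ < t₄ ∧ t₄ < t₁ + 1 ∧ u ≠ 0 ∧ (v = r * I * u ∨ v = -(r * I * u)) ∧
  c t₂ = c t₁ + u ∧ c t₃ = c t₁ + u + v ∧ c t₄ = c t₁ + v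

theorem gr_pos {c : ℝ → ℂ} {m r : ℝ} (hr : 0 < r) (hper : ∀ t, c (t + 1) = c t) (hm0 : 0 < m)
    (hm1 : m < 1) (h : GTWO (fun s => c (m * s)) (fun s => c (1 - (1 - m) * s)) r) :
    ∃ (t₁ t₂ t₃ t₄ : ℝ) (u v : ℂ),
      t₁ < t₂ ∧ t₂ < t₃ ∧ t₃ < t₄ ∧ t₄ < t₁ + 1 ∧ u ≠ 0 ∧ v = r * I * u ∧
      c t₂ = c t₁ + u ∧ c t₃ = c t₁ + u + v ∧ c t₄ = c t₁ + v := by
  obtain ⟨l, hl, i, j, sL, sB, sR, sT, ⟨hsL, hsB, hsR, hsT, o1, o2, o3, o4⟩, hq⟩ := h
  obtain ⟨dTL, dBL, dRT, dRB⟩ := hq.sides hr hl.le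
  have hml : 0 < min 1 r * l := mul_pos (lt_min one_pos hr) hl
  have hc1 : c 1 = c 0 := by
    have := hper 0
    rwa [zero_add] at this
  -- the parameters
  obtain ⟨tB, htB⟩ : ∃ t, t = m * sB := ⟨_, rfl⟩
  obtain ⟨tT, htT⟩ : ∃ t, t = 1 - (1 - m) * sT := ⟨_, rfl⟩
  have hB0 : 0 ≤ tB := by rw [htB]; exact mul_nonneg hm0.le hsB.1
  have hBm : tB ≤ m := by rw [htB]; exact mul_le_of_le_one_right hm0.le hsB.2
  have hTm : m ≤ tT := by
    have : (1 - m) * sT ≤ 1 - m := mul_le_of_le_one_right (by linarith) hsT.2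
    rw [htT]; linarith
  have hT1 : tT ≤ 1 := by
    have : 0 ≤ (1 - m) * sT := mul_nonneg (by linarith) hsT.1
    rw [htT]; linarith
  obtain ⟨tL, htL, hL⟩ : ∃ t, c t = arc (fun s => c (m * s)) (fun s => c (1 - (1 - m) * s)) i sL ∧
      ((0 ≤ t ∧ t ≤ tB) ∨ (tT ≤ t ∧ t ≤ 1)) := by
    cases i
    · refine ⟨1 - (1 - m) * sL, rfl, Or.inr ⟨?_, ?_⟩⟩
      · have : (1 - m) * sL ≤ (1 - m) * sT := mul_le_mul_of_nonneg_left (o2 rfl) (by linarith)
        rw [htT]; linarith
      · have : 0 ≤ (1 - m) * sL := mul_nonneg (by linarith) hsL.1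
        linarith
    · refine ⟨m * sL, rfl, Or.inl ⟨mul_nonneg hm0.le hsL.1, ?_⟩⟩
      rw [htB]
      exact mul_le_mul_of_nonneg_left (o1 rfl) hm0.le
  obtain ⟨tR, htR, hR1, hR2⟩ : ∃ t, c t = arc (fun s => c (m * s)) (fun s => c (1 - (1 - m) * s)) j sR ∧
      tB ≤ t ∧ t ≤ tT := by
    cases j
    · refine ⟨1 - (1 - m) * sR, rfl, ?_, ?_⟩
      · have : (1 - m) * sR ≤ 1 - m := mul_le_of_le_one_right (by linarith) hsR.2
        linarith
      · have : (1 - m) * sT ≤ (1 - m) * sR := mul_le_mul_of_nonneg_left (o4 rfl) (by linarith)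
        rw [htT]; linarith
    · refine ⟨m * sR, rfl, ?_, ?_⟩
      · rw [htB]
        exact mul_le_mul_of_nonneg_left (o3 rfl) hm0.le
      · have : m * sR ≤ m := mul_le_of_le_one_right hm0.le hsR.2
        linarith
  have hcB : c tB = c (m * sB) := by rw [htB]
  have hcT : c tT = c (1 - (1 - m) * sT) := by rw [htT]
  -- the points are different
  have nBR : tB ≠ tR := by
    intro h
    rw [← htR, ← h, hcB] at dRB
    simp only [sub_self, norm_zero] at dRB
    linarith
  have nRT : tR ≠ tT := by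
    intro h
    rw [← htR, h, hcT] at dRT
    simp only [sub_self, norm_zero] at dRT
    linarith
  have nLB : c tL ≠ c tB := by
    intro h
    rw [← htL, h, hcB] at dBL
    simp only [sub_self, norm_zero] at dBL
    linarith
  have nLT : c tL ≠ c tT := by
    intro h
    rw [← htL, h, hcT] at dTL
    simp only [sub_self, norm_zero] at dTL
    linarith
  have l1 : tB < tR := lt_of_le_of_ne hR1 nBR
  have l2 : tR < tT := lt_of_le_of_ne hR2 nRT
  obtain ⟨q0, ⟨q1, q2⟩ | ⟨q1, q2⟩⟩ := hq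
  · -- the vertices are bottom, right, top, left
    rw [← htL, ← htR] at q0
    rw [← htL, ← htR] at q1
    rw [← htR] at q2
    simp only [← hcB, ← hcT] at q0 q1 q2
    have hu : c tR - c tB ≠ 0 := by
      intro h
      rw [h, norm_zero] at q2
      linarith
    rcases hL with ⟨g1, g2⟩ | ⟨g1, g2⟩
    · refine ⟨tB, tR, tT, tL + 1, c tR - c tB, c tL - c tB, l1, l2, ?_, ?_, hu, q1, by ring, ?_, ?_⟩
      · refine lt_of_le_of_ne (by linarith) fun h => nLT ?_
        have h3 : tL = 0 := by linarith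
        have h4 : tT = 1 := by linarith
        rw [h3, h4, hc1]
      · have : tL ≠ tB := fun h => nLB (by rw [h])
        have := lt_of_le_of_ne g2 this
        linarith
      · linear_combination -q0
      · rw [hper]; ring
    · refine ⟨tB, tR, tT, tL, c tR - c tB, c tL - c tB, l1, l2, ?_, ?_, hu, q1, by ring, ?_, by ring⟩
      · exact lt_of_le_of_ne g1 fun h => nLT (by rw [h])
      · refine lt_of_le_of_ne (by linarith) fun h => nLB ?_
        have h3 : tL = 1 := by linarith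
        have h4 : tB = 0 := by linarith
        rw [h3, h4, hc1]
      · linear_combination -q0
  · rw [← htL, ← htR] at q0
    rw [← htL] at q1 q2
    simp only [← hcB, ← hcT] at q0 q1 q2
    have hu : c tB - c tL ≠ 0 := by
      intro h
      rw [h, norm_zero] at q2
      linarith
    rcases hL with ⟨g1, g2⟩ | ⟨g1, g2⟩
    · refine ⟨tL, tB, tR, tT, c tB - c tL, c tT - c tL, ?_, l1, l2, ?_, hu, q1, by ring, ?_, by ring⟩
      · exact lt_of_le_of_ne g2 fun h => nLB (by rw [h])
      · refine lt_of_le_of_ne (by linarith) fun h => nLT ?_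
        have h3 : tL = 0 := by linarith
        have h4 : tT = 1 := by linarith
        rw [h3, h4, hc1]
      · linear_combination q0
    · have hp : c (tL - 1) = c tL := by
        have := hper (tL - 1)
        rw [sub_add_cancel] at this
        exact this.symm
      refine ⟨tL - 1, tB, tR, tT, c tB - c tL, c tT - c tL, ?_, l1, l2, ?_, hu, q1, ?_, ?_, ?_⟩
      · have : tL - 1 ≠ tB := by
          intro h
          apply nLB
          have h3 : tL = 1 := by linarith
          have h4 : tB = 0 := by linarith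
          rw [h3, h4, hc1]
        exact lt_of_le_of_ne (by linarith) this
      · have := lt_of_le_of_ne g1 fun h => nLT (by rw [h])
        linarith
      · rw [hp]; ring
      · rw [hp]; linear_combination q0
      · rw [hp]; ring

theorem gr_uni {c : ℝ → ℂ} {m r : ℝ} (hr : 0 < r) (hc : Continuous c)
    (hper : ∀ t, c (t + 1) = c t) (hinj : InjOn c (Ico 0 1)) (hm0 : 0 < m) (hm1 : m < 1)
    (hmono : MonotoneOn (fun t => (c t).re) (Icc 0 m))
    (hanti : AntitoneOn (fun t => (c t).re) (Icc m 1)) : HasGr c r := by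
  have hc1 : c 1 = c 0 := by
    have := hper 0
    rwa [zero_add] at this
  obtain ⟨a1, ha1⟩ : ∃ a1 : ℝ → ℂ, ∀ s, a1 s = c (m * s) := ⟨_, fun _ => rfl⟩
  obtain ⟨a2, ha2⟩ : ∃ a2 : ℝ → ℂ, ∀ s, a2 s = c (1 - (1 - m) * s) := ⟨_, fun _ => rfl⟩
  have hf1 : a1 = fun s => c (m * s) := funext ha1
  have hf2 : a2 = fun s => c (1 - (1 - m) * s) := funext ha2
  have hA : Arc2 a1 a2 := by
    refine ⟨?_, ?_, ?_, ?_, ?_, ?_, ?_, ?_⟩
    · rw [hf1]
      exact hc.comp (by fun_prop)
    · rw [hf2]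
      exact hc.comp (by fun_prop)
    · intro s hs t ht hst
      simp only [ha1]
      refine hmono ⟨by nlinarith [hs.1], by nlinarith [hs.2]⟩ ⟨by nlinarith [ht.1], by nlinarith [ht.2]⟩ ?_
      exact mul_le_mul_of_nonneg_left hst hm0.le
    · intro s hs t ht hst
      simp only [ha2]
      refine hanti ⟨by nlinarith [ht.2], by nlinarith [ht.1]⟩ ⟨by nlinarith [hs.2], by nlinarith [hs.1]⟩ ?_
      nlinarith
    · rw [ha1, ha2, mul_zero, mul_zero, sub_zero, hc1]
    · rw [ha1, ha2]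
      congr 1
      ring
    · rw [ha1, ha1, mul_zero, mul_one]
      exact uni_lt hc hper hinj hm0 hm1 hmono hanti
    · intro s hs s' hs' hss
      rw [ha1, ha2] at hss
      have hms : m * s ∈ Ico (0 : ℝ) 1 := ⟨by nlinarith [hs.1], by nlinarith [hs.2]⟩
      rcases eq_or_ne s' 0 with h0 | h0
      · left
        refine ⟨?_, h0⟩
        rw [h0, mul_zero, sub_zero, hc1] at hss
        have h1 := hinj hms ⟨le_rfl, by norm_num⟩ hss
        rcases mul_eq_zero.1 h1 with h2 | h2
        · linarith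
        · exact h2
      · right
        have hs'0 : 0 < s' := lt_of_le_of_ne hs'.1 (Ne.symm h0)
        have h1 := hinj hms (show 1 - (1 - m) * s' ∈ Ico (0 : ℝ) 1 from
          ⟨by nlinarith [hs'.2], by nlinarith⟩) hss
        have h2 : m * s ≤ m := by nlinarith [hs.2]
        have h3 : m ≤ 1 - (1 - m) * s' := by nlinarith [hs'.2]
        have h4 : m * s = m := le_antisymm h2 (h1 ▸ h3)
        have h5 : s = 1 := by
          have : m * (s - 1) = 0 := by linarith
          rcases mul_eq_zero.1 this with h6 | h6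
          · linarith
          · linarith
        have h7 : (1 - m) * (s' - 1) = 0 := by
          have : 1 - (1 - m) * s' = m := h1 ▸ h4
          linarith
        rcases mul_eq_zero.1 h7 with h6 | h6
        · linarith
        · exact ⟨h5, by linarith⟩
  rcases gtwo hA hr with h | h
  · rw [hf1, hf2] at h
    obtain ⟨t1, t2, t3, t4, u, v, h1, h2, h3, h4, h5, h6, h7, h8, h9⟩ := gr_pos hr hper hm0 hm1 h
    exact ⟨t1, t2, t3, t4, u, v, h1, h2, h3, h4, h5, Or.inl h6, h7, h8, h9⟩
  · have hper' : ∀ t, (fun x => c (1 - x)) (t + 1) = (fun x => c (1 - x)) t := by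
      intro t
      show c (1 - (t + 1)) = c (1 - t)
      rw [← hper (1 - (t + 1))]
      congr 1
      ring
    have e1 : a2 = fun s => (fun x => c (1 - x)) ((1 - m) * s) := hf2
    have e2 : a1 = fun s => (fun x => c (1 - x)) (1 - (1 - (1 - m)) * s) := by
      rw [hf1]
      funext s
      show c (m * s) = c (1 - (1 - (1 - (1 - m)) * s))
      congr 1
      ring
    rw [e1, e2] at h
    obtain ⟨t1, t2, t3, t4, u, v, h1, h2, h3, h4, h5, h6, h7, h8, h9⟩ :=
      gr_pos (c := fun x => c (1 - x)) (m := 1 - m) hr hper' (by linarith) (by linarith) h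
    refine ⟨1 - t4, 1 - t3, 1 - t2, 1 - t1, u, -v, by linarith, by linarith, by linarith,
      by linarith, h5, Or.inr (by rw [h6]), ?_, ?_, ?_⟩
    · rw [h8, h9]; ring
    · rw [h7, h9]; ring
    · rw [h9]; ring

end Pool.Agent.T2h56.GRC
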